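import Pool.Agent.Work.MP_c9f990_an.Rg.All

set_option autoImplicit false

/-!
# MP_c9f990_an: limit states of a flock (helper53)
-/

open MeasureTheory Set Filter Topology
open scoped NNReal ENNReal

namespace Pool.Agent.Work.MP_c9f990_an.Al

namespace DynX

variable {N n : ℕ}

/-- a nonnegative Lipschitz function with bounded integral tends to zero -/
lemma barbalat {g : ℝ → ℝ} {L : ℝ} (h0 : ∀ t, 0 ≤ g t) (hc : ContinuousOn g (Ici 0))
    (hL : ∀ s t, 0 ≤ s → s ≤ t → g s - g t ≤ L * (t - s)) (hb : BddInt g) :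
    Tendsto g atTop (𝓝 0) := by
  obtain ⟨A, hA⟩ := hb
  set G : ℝ → ℝ := fun T => ∫ t in (0 : ℝ)..(max T 0), g t with hG
  have hmono : Monotone G := by
    intro a b hab
    have h1 : max a 0 ≤ max b 0 := max_le_max hab le_rfl
    have h2 : (0 : ℝ) ≤ max a 0 := le_max_right _ _
    have h3 : (0 : ℝ) ≤ max b 0 := le_max_right _ _
    simp only [hG]
    rw [← intervalIntegral.integral_add_adjacent_intervals (I_INTGX.intb hc le_rfl h2)
      (I_INTGX.intb hc h2 h3)]
    have : 0 ≤ ∫ t in (max a 0)..(max b 0), g t :=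
      intervalIntegral.integral_nonneg h1 (fun t _ => h0 t)
    linarith
  have hbdd : BddAbove (range G) := ⟨A, by
    rintro _ ⟨T, rfl⟩
    exact hA _ (le_max_right _ _)⟩
  have hlim := tendsto_atTop_ciSup hmono hbdd
  set ℓ := ⨆ i, G i
  rw [Metric.tendsto_atTop]
  intro ε hε
  set h : ℝ := ε / (2 * (|L| + 1)) with hh
  have hL1 : 0 < |L| + 1 := by positivity
  have hh0 : 0 < h := by positivity
  have hLh : L * h ≤ ε / 2 := by
    have e1 : L * h ≤ (|L| + 1) * h := by
      apply mul_le_mul_of_nonneg_right _ hh0.le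
      linarith [le_abs_self L]
    have e2 : (|L| + 1) * h = ε / 2 := by
      rw [hh]
      field_simp
    linarith
  have hev : ∀ᶠ T in atTop, ℓ - ε * h / 2 < G T :=
    hlim.eventually (lt_mem_nhds (by have : 0 < ε * h := mul_pos hε hh0; linarith))
  obtain ⟨T0, hT0⟩ := eventually_atTop.1 hev
  refine ⟨max T0 0, fun t ht => ?_⟩
  have ht0 : 0 ≤ t := (le_max_right _ _).trans ht
  have ht1 : T0 ≤ t := (le_max_left _ _).trans ht
  rw [Real.dist_eq, sub_zero, abs_of_nonneg (h0 t)]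
  by_contra hcon
  rw [not_lt] at hcon
  have hth : 0 ≤ t + h := by linarith
  have g1 : G t = ∫ s in (0 : ℝ)..t, g s := by simp only [hG]; rw [max_eq_left ht0]
  have g2 : G (t + h) = ∫ s in (0 : ℝ)..(t + h), g s := by simp only [hG]; rw [max_eq_left hth]
  have g3 : G (t + h) = G t + ∫ s in t..(t + h), g s := by
    rw [g1, g2]
    exact (intervalIntegral.integral_add_adjacent_intervals (I_INTGX.intb hc le_rfl ht0)
      (I_INTGX.intb hc ht0 hth)).symm
  have g4 : ∫ s in t..(t + h), (ε / 2) ≤ ∫ s in t..(t + h), g s := by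
    apply intervalIntegral.integral_mono_on (by linarith) intervalIntegrable_const
      (I_INTGX.intb hc ht0 hth)
    intro s hs
    have e1 := hL t s ht0 hs.1
    have e2 : L * (s - t) ≤ ε / 2 := by
      have e3 : L * (s - t) ≤ |L| * (s - t) :=
        mul_le_mul_of_nonneg_right (le_abs_self L) (by linarith [hs.1])
      have e4 : |L| * (s - t) ≤ |L| * h :=
        mul_le_mul_of_nonneg_left (by linarith [hs.2]) (abs_nonneg _)
      have e5 : |L| * h ≤ (|L| + 1) * h := by nlinarith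
      have e6 : (|L| + 1) * h = ε / 2 := by
        rw [hh]
        field_simp
      linarith
    linarith
  rw [intervalIntegral.integral_const] at g4
  have g5 : (t + h - t) • (ε / 2) = ε * h / 2 := by
    simp only [smul_eq_mul]
    ring
  rw [g5] at g4
  have g6 : G (t + h) ≤ ℓ := le_ciSup hbdd (t + h)
  have g7 := hT0 t ht1
  linarith

lemma ke_bound {Φ : E n → ℝ} (hΦ : Kernel Φ) {x v : ℝ → C N n} (hf : IsFlock Φ x v) (i : Fin N)
    {t : ℝ} (ht : 0 ≤ t) : ‖v t i‖ ≤ Real.sqrt (ke (v 0)) := by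
  apply Real.le_sqrt_of_sq_le
  have h1 : ke (v t) ≤ ke (v 0) := (I_ENG n N Φ hΦ x v hf).1 0 t le_rfl ht
  have h2 : ‖v t i‖ ^ 2 ≤ ke (v t) :=
    Finset.single_le_sum (f := fun i => ‖v t i‖ ^ 2) (fun j _ => by positivity)
      (Finset.mem_univ i)
  exact h2.trans h1

lemma deriv_i {Φ : E n → ℝ} {x v : ℝ → C N n} (hf : IsFlock Φ x v) (i : Fin N)
    {t : ℝ} (ht : 0 ≤ t) : HasDerivWithinAt (fun s => x s i) (v t i) (Ici 0) t :=
  (hasDerivWithinAt_pi.1 (hf t ht).1) i

lemma phi_lip {Φ : E n → ℝ} (hΦ : Kernel Φ) : ∃ A : ℝ, 0 ≤ A ∧ ∀ a b, |Φ a - Φ b| ≤ A * ‖a - b‖ := by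
  obtain ⟨A, hA⟩ := I_PERB n Φ hΦ
  refine ⟨A, (norm_nonneg _).trans (hA 0).2, fun a b => ?_⟩
  have h := Convex.norm_image_sub_le_of_norm_fderiv_le (𝕜 := ℝ) (f := Φ) (C := A) (s := univ)
    (x := b) (y := a) (fun x _ => (hΦ.smooth.differentiable (by norm_num)) x)
    (fun x _ => (hA x).2) convex_univ (mem_univ _) (mem_univ _)
  simpa [Real.norm_eq_abs] using h

/-- the interaction of agents with different limit velocities tends to zero -/
theorem phi_tendsto {Φ : E n → ℝ} (hΦ : Kernel Φ) {x v : ℝ → C N n} (hf : IsFlock Φ x v)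
    {c : C N n} (hc : ∀ i, Tendsto (fun t => v t i) atTop (𝓝 (c i))) {i j : Fin N}
    (hij : c i ≠ c j) : Tendsto (fun t => Φ (x t i - x t j)) atTop (𝓝 0) := by
  obtain ⟨A, hA0, hA⟩ := phi_lip hΦ
  set B : ℝ := 2 * Real.sqrt (ke (v 0)) with hB
  refine barbalat (L := A * B) (fun t => hΦ.nonneg _) (I_INTGX.contg hΦ hf i j) ?_
    (p_INTG n N Φ hΦ x v hf c hc i j hij)
  intro s t hs hst
  have ht : 0 ≤ t := hs.trans hst
  have h1 : ‖(x s i - x s j) - (x t i - x t j)‖ ≤ B * (t - s) := by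
    have h2 := Convex.norm_image_sub_le_of_norm_hasDerivWithin_le
      (f := fun r => x r i - x r j) (f' := fun r => v r i - v r j) (C := B) (s := Ici (0 : ℝ))
      (x := t) (y := s)
      (fun r hr => (deriv_i hf i hr).sub (deriv_i hf j hr))
      (fun r hr => by
        calc ‖v r i - v r j‖ ≤ ‖v r i‖ + ‖v r j‖ := norm_sub_le _ _
          _ ≤ B := by
            rw [hB]
            have := ke_bound hΦ hf i hr
            have := ke_bound hΦ hf j hr
            linarith)
      (convex_Ici 0) ht hs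
    refine h2.trans ?_
    rw [Real.norm_eq_abs, abs_sub_comm, abs_of_nonneg (by linarith)]
  have h3 := hA (x s i - x s j) (x t i - x t j)
  have h4 : A * ‖(x s i - x s j) - (x t i - x t j)‖ ≤ A * (B * (t - s)) :=
    mul_le_mul_of_nonneg_left h1 hA0
  have h5 := le_abs_self (Φ (x s i - x s j) - Φ (x t i - x t j))
  calc Φ (x s i - x s j) - Φ (x t i - x t j) ≤ A * (B * (t - s)) := h5.trans (h3.trans h4)
    _ = A * B * (t - s) := by ring

/-- displacement over a fixed time -/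
theorem disp {Φ : E n → ℝ} {x v : ℝ → C N n} (hf : IsFlock Φ x v)
    {c : C N n} (hc : ∀ i, Tendsto (fun t => v t i) atTop (𝓝 (c i))) (i : Fin N) (s : ℝ) :
    Tendsto (fun t => x (t + s) i - x t i) atTop (𝓝 (s • c i)) := by
  rw [Metric.tendsto_atTop]
  intro ε hε
  have h1 : ∀ᶠ t in atTop, ‖v t i - c i‖ < ε / (|s| + 1) := by
    have h2 : Tendsto (fun t => ‖v t i - c i‖) atTop (𝓝 0) := by
      have h3 := ((hc i).sub_const (c i)).norm
      simpa using h3
    exact h2.eventually (gt_mem_nhds (by positivity))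
  obtain ⟨T0, hT0⟩ := eventually_atTop.1 h1
  refine ⟨max T0 0 + |s|, fun t ht => ?_⟩
  have ha : max T0 0 ≤ t := by linarith [abs_nonneg s]
  have hb : max T0 0 ≤ t + s := by linarith [neg_abs_le s]
  have h4 := Convex.norm_image_sub_le_of_norm_hasDerivWithin_le
      (f := fun r => x r i - r • c i) (f' := fun r => v r i - (1 : ℝ) • c i)
      (C := ε / (|s| + 1)) (s := Ici (max T0 0)) (x := t) (y := t + s)
      (fun r hr => by
        have hr0 : 0 ≤ r := (le_max_right _ _).trans hr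
        have d1 := (deriv_i hf i hr0).mono (Ici_subset_Ici.2 (le_max_right T0 0))
        have d2 : HasDerivWithinAt (fun r : ℝ => r • c i) ((1 : ℝ) • c i) (Ici (max T0 0)) r :=
          (hasDerivWithinAt_id r _).smul_const (c i)
        exact d1.sub d2)
      (fun r hr => by
        rw [one_smul]
        exact (hT0 r ((le_max_left _ _).trans hr)).le)
      (convex_Ici _) ha hb
  rw [dist_eq_norm]
  have e1 : x (t + s) i - x t i - s • c i =
      (x (t + s) i - (t + s) • c i) - (x t i - t • c i) := by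
    rw [add_smul]
    abel
  rw [e1]
  refine lt_of_le_of_lt h4 ?_
  have e2 : t + s - t = s := by ring
  rw [e2, Real.norm_eq_abs, div_mul_eq_mul_div, div_lt_iff₀ (by positivity)]
  nlinarith [abs_nonneg s]

/-- limit states: along a subsequence of any sequence of times tending to infinity the flock
converges, up to lattice translations, to a state which moves with the limit velocities and in
which agents of different limit velocities never interact -/
theorem limit_state {Φ : E n → ℝ} (hΦ : Kernel Φ) {x v : ℝ → C N n} (hf : IsFlock Φ x v)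
    {c : C N n} (hc : ∀ i, Tendsto (fun t => v t i) atTop (𝓝 (c i))) {τ : ℕ → ℝ}
    (hτ : Tendsto τ atTop atTop) :
    ∃ (y : C N n) (ψ : ℕ → ℕ), StrictMono ψ ∧
      (∀ (i j : Fin N) (s : ℝ), Tendsto (fun k => Φ (x (τ (ψ k) + s) i - x (τ (ψ k) + s) j)) atTop
        (𝓝 (Φ (y i - y j + s • (c i - c j))))) ∧
      ∀ i j : Fin N, c i ≠ c j → ∀ s : ℝ, Φ (y i - y j + s • (c i - c j)) = 0 := by
  have hred : ∀ k : ℕ, ∀ i : Fin N, ∃ (m : Fin n → ℤ) (w : E n),
      w ∈ Metric.closedBall (0 : E n) (Real.sqrt (n * (2 * Real.pi) ^ 2)) ∧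
        x (τ k) i = w + lat m := fun k i => I_PERBX.red (x (τ k) i)
  choose m w hw hxw using hred
  have hmem : ∀ k, (w k : C N n) ∈
      Metric.closedBall (0 : C N n) (Real.sqrt (n * (2 * Real.pi) ^ 2)) := by
    intro k
    rw [mem_closedBall_zero_iff]
    refine (pi_norm_le_iff_of_nonneg (Real.sqrt_nonneg _)).2 (fun i => ?_)
    exact mem_closedBall_zero_iff.1 (hw k i)
  obtain ⟨y, -, ψ, hψ, hy⟩ := (isCompact_closedBall (0 : C N n) _).tendsto_subseq hmem
  have hτψ : Tendsto (fun k => τ (ψ k)) atTop atTop := hτ.comp hψ.tendsto_atTop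
  have hmain : ∀ (i j : Fin N) (s : ℝ),
      Tendsto (fun k => Φ (x (τ (ψ k) + s) i - x (τ (ψ k) + s) j)) atTop
        (𝓝 (Φ (y i - y j + s • (c i - c j)))) := by
    intro i j s
    have h1 : Tendsto (fun k => (x (τ (ψ k) + s) i - x (τ (ψ k)) i)) atTop (𝓝 (s • c i)) :=
      (disp hf hc i s).comp hτψ
    have h2 : Tendsto (fun k => (x (τ (ψ k) + s) j - x (τ (ψ k)) j)) atTop (𝓝 (s • c j)) :=
      (disp hf hc j s).comp hτψ
    have h3 : Tendsto (fun k => w (ψ k) i) atTop (𝓝 (y i)) := (tendsto_pi_nhds.1 hy) i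
    have h4 : Tendsto (fun k => w (ψ k) j) atTop (𝓝 (y j)) := (tendsto_pi_nhds.1 hy) j
    have h5 := ((h3.sub h4).add (h1.sub h2))
    rw [← smul_sub] at h5
    have h6 := (hΦ.smooth.continuous.tendsto _).comp h5
    refine h6.congr (fun k => ?_)
    have h7 : x (τ (ψ k) + s) i - x (τ (ψ k) + s) j =
        (w (ψ k) i - w (ψ k) j + ((x (τ (ψ k) + s) i - x (τ (ψ k)) i) -
          (x (τ (ψ k) + s) j - x (τ (ψ k)) j))) + lat (m (ψ k) i - m (ψ k) j) := by
      have h8 : lat (m (ψ k) i - m (ψ k) j) = lat (m (ψ k) i) - lat (m (ψ k) j) := by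
        unfold lat
        ext l
        simp
        ring
      have h9 := hxw (ψ k) i
      have h10 := hxw (ψ k) j
      rw [h8, h9, h10]
      abel
    simp only [Function.comp]
    rw [h7, hΦ.per]
  refine ⟨y, ψ, hψ, hmain, fun i j hij s => ?_⟩
  have h1 : Tendsto (fun k => Φ (x (τ (ψ k) + s) i - x (τ (ψ k) + s) j)) atTop (𝓝 0) :=
    (phi_tendsto hΦ hf hc hij).comp (tendsto_atTop_add_const_right _ s hτψ)
  exact tendsto_nhds_unique (hmain i j s) h1

end DynX

/-- For almost every datum the velocities converge and, unless all limits agree, there is a limit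
state in which some cluster is not connected by bonds. -/
theorem dyn (n N : ℕ) (Φ : E n → ℝ) (hΦ : Kernel Φ) (hL : LipGrad Φ) :
    ∀ᵐ z : P N n, ∀ x v : ℝ → C N n, IsFlock Φ x v → (x 0, v 0) = z →
      ∃ c : C N n, (∀ i, Tendsto (fun t => v t i) atTop (𝓝 (c i))) ∧
        ((∀ i j, c i = c j) ∨
          ∃ (A : Finset (Fin N)) (y : C N n), (∀ a ∈ A, ∀ b ∈ A, c a = c b) ∧
            (∃ a ∈ A, ∃ b, b ∉ A ∧ c b = c a) ∧
            (∀ a ∈ A, ∀ b, b ∉ A → c b = c a → Φ (y a - y b) = 0) ∧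
            ∀ i j : Fin N, c i ≠ c j → ∀ s : ℝ, Φ (y i - y j + s • (c i - c j)) = 0) := by
  filter_upwards [all_generalR n N Φ hΦ hL] with z hz
  intro x v hxv h0
  obtain ⟨c, hc, _, _, _, h⟩ := hz x v hxv h0
  refine ⟨c, hc, ?_⟩
  rcases h with h | ⟨A, hA, hA2, hA3⟩
  · exact Or.inl h
  right
  have hτ : ∀ k : ℕ, ∃ t : ℝ, (k : ℝ) ≤ t ∧ ∀ i ∈ A, ∀ j, j ∉ A → c j = c i →
      Φ (x t i - x t j) < 1 / ((k : ℝ) + 1) := fun k => hA3 _ (by positivity) k
  choose τ hτ1 hτ2 using hτ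
  have hτ3 : Tendsto τ atTop atTop := tendsto_atTop_mono hτ1 tendsto_natCast_atTop_atTop
  obtain ⟨y, ψ, hψ, hy1, hy2⟩ := DynX.limit_state hΦ hxv hc hτ3
  refine ⟨A, y, hA, hA2, ?_, hy2⟩
  intro a ha b hb hab
  have h1 := hy1 a b 0
  rw [zero_smul, add_zero] at h1
  have h2 : Tendsto (fun k => Φ (x (τ (ψ k) + 0) a - x (τ (ψ k) + 0) b)) atTop (𝓝 0) := by
    have h3 : Tendsto (fun k : ℕ => 1 / (((ψ k : ℕ) : ℝ) + 1)) atTop (𝓝 0) :=
      tendsto_one_div_add_atTop_nhds_zero_nat.comp hψ.tendsto_atTop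
    refine squeeze_zero (fun k => hΦ.nonneg _) (fun k => ?_) h3
    rw [add_zero]
    exact (hτ2 (ψ k) a ha b hb hab).le
  exact tendsto_nhds_unique h1 h2

end Pool.Agent.Work.MP_c9f990_an.Al
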