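import Pool.Agent.Work.MP_c9f990_an.Rg.All

set_option autoImplicit false

/-!
# MP_c9f990_an: lines in the plane which avoid the disks of radius `r_0` around the lattice
(helper53)
-/

open MeasureTheory Set Filter Topology

namespace Pool.Agent.Work.MP_c9f990_an.Al

/-- `t` has distance at least `ρ` from all multiples of `2 π` -/
def FarC (ρ t : ℝ) : Prop := ∀ k : ℤ, ρ ≤ |t + 2 * Real.pi * k|

/-- `t` has distance at most `w` from some multiple of `2 π` -/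
def NearC (w t : ℝ) : Prop := ∃ k : ℤ, |t + 2 * Real.pi * k| ≤ w

namespace G1X

lemma norm_sq2 (a : E 2) : ‖a‖ ^ 2 = a 0 ^ 2 + a 1 ^ 2 := by
  rw [EuclideanSpace.norm_sq_eq]
  simp [Fin.sum_univ_two]

lemma dist_ge {Φ : E 2 → ℝ} (hΦ : Kernel Φ) {r₀ : ℝ} (hR : ∀ x, ‖x‖ < r₀ → 0 < Φ x)
    {y : E 2} (h : Φ y = 0) (m : Fin 2 → ℤ) : r₀ ≤ ‖y + lat m‖ := by
  by_contra hcon
  rw [not_le] at hcon
  have := hR _ hcon
  rw [hΦ.per, h] at this
  exact lt_irrefl _ this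

lemma resonant {n : ℕ} {Φ : E n → ℝ} (hΦ : Kernel Φ) {y u : E n}
    (h : ∀ s : ℝ, Φ (y + s • u) = 0) : Resonant u := by
  by_contra hu
  obtain ⟨L, c, hL, hc, hLc⟩ := I_UE n Φ hΦ u hu
  have h1 := hLc y
  have h2 : ∫ t in (0 : ℝ)..L, Φ (y + t • u) = 0 := by
    simp [h]
  linarith

lemma coprime_form {u : E 2} (hu : Resonant u) : ∃ p q : ℤ, IsCoprime p q ∧
    (p : ℝ) * u 0 + (q : ℝ) * u 1 = 0 := by
  obtain ⟨m, hm, h⟩ := hu
  rw [Fin.sum_univ_two] at h
  have hg : 0 < Int.gcd (m 0) (m 1) := by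
    rw [Int.gcd_pos_iff]
    by_contra hcon
    push Not at hcon
    apply hm
    funext i
    fin_cases i
    · exact hcon.1
    · exact hcon.2
  obtain ⟨p, q, hpq, h0, h1⟩ := Int.exists_gcd_one hg
  refine ⟨p, q, Int.isCoprime_iff_gcd_eq_one.2 hpq, ?_⟩
  have h0' : ((m 0 : ℤ) : ℝ) = (p : ℝ) * ((Int.gcd (m 0) (m 1) : ℕ) : ℝ) := by exact_mod_cast h0
  have h1' : ((m 1 : ℤ) : ℝ) = (q : ℝ) * ((Int.gcd (m 0) (m 1) : ℕ) : ℝ) := by exact_mod_cast h1
  rw [h0', h1'] at h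
  have hg2 : ((Int.gcd (m 0) (m 1) : ℕ) : ℝ) ≠ 0 := by exact_mod_cast hg.ne'
  have h3 : ((Int.gcd (m 0) (m 1) : ℕ) : ℝ) * ((p : ℝ) * u 0 + (q : ℝ) * u 1) = 0 := by
    linarith
  exact (mul_eq_zero.1 h3).resolve_left hg2

end G1X

open G1X in
/-- a line which avoids the disks has one of four directions -/
theorem line_dir {Φ : E 2 → ℝ} (hΦ : Kernel Φ) {r₀ : ℝ} (hR : ∀ x, ‖x‖ < r₀ → 0 < Φ x)
    (hr : 53 / 100 * Real.pi < r₀) {y u : E 2} (hu : u ≠ 0) (h : ∀ s : ℝ, Φ (y + s • u) = 0) :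
    (u 1 = 0 ∧ FarC r₀ (y 1)) ∨ (u 0 = 0 ∧ FarC r₀ (y 0)) ∨
      (u 0 = u 1 ∧ FarC (Real.sqrt 2 * r₀) (y 0 - y 1)) ∨
      (u 0 + u 1 = 0 ∧ FarC (Real.sqrt 2 * r₀) (y 0 + y 1)) := by
  have hpi : 0 < Real.pi := Real.pi_pos
  have hr0 : 0 < r₀ := by nlinarith
  obtain ⟨p, q, hpq, hpu⟩ := coprime_form (resonant hΦ h)
  obtain ⟨a, b, hab⟩ := hpq
  have hD : (0 : ℝ) < (p : ℝ) ^ 2 + (q : ℝ) ^ 2 := by
    have h1 : (p : ℝ) ≠ 0 ∨ (q : ℝ) ≠ 0 := by
      by_contra hcon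
      push Not at hcon
      have hp : p = 0 := by exact_mod_cast hcon.1
      have hq : q = 0 := by exact_mod_cast hcon.2
      rw [hp, hq] at hab
      simp at hab
    rcases h1 with h1 | h1
    · have := sq_nonneg (q : ℝ)
      have := pow_pos (abs_pos.2 h1) 2
      rw [sq_abs] at this
      linarith
    · have := sq_nonneg (p : ℝ)
      have := pow_pos (abs_pos.2 h1) 2
      rw [sq_abs] at this
      linarith
  have hab' : (a : ℝ) * p + (b : ℝ) * q = 1 := by exact_mod_cast hab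
  have htu : -(q : ℝ) * u 0 + (p : ℝ) * u 1 ≠ 0 := by
    intro h0
    apply hu
    have e0 : ((p : ℝ) ^ 2 + (q : ℝ) ^ 2) * u 0 = 0 := by linear_combination (p : ℝ) * hpu - (q : ℝ) * h0
    have e1 : ((p : ℝ) ^ 2 + (q : ℝ) ^ 2) * u 1 = 0 := by linear_combination (q : ℝ) * hpu + (p : ℝ) * h0
    ext i
    fin_cases i
    · exact (mul_eq_zero.1 e0).resolve_left hD.ne'
    · exact (mul_eq_zero.1 e1).resolve_left hD.ne'
  have key : ∀ j : ℤ, r₀ ^ 2 * ((p : ℝ) ^ 2 + (q : ℝ) ^ 2) ≤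
      ((p : ℝ) * y 0 + (q : ℝ) * y 1 + 2 * Real.pi * j) ^ 2 := by
    intro j
    set m : Fin 2 → ℤ := ![j * a, j * b] with hm
    set z0 : ℝ := y 0 + 2 * Real.pi * (j * a) with hz0
    set z1 : ℝ := y 1 + 2 * Real.pi * (j * b) with hz1
    set s : ℝ := -(-(q : ℝ) * z0 + (p : ℝ) * z1) / (-(q : ℝ) * u 0 + (p : ℝ) * u 1) with hs
    have h1 := dist_ge hΦ hR (h s) m
    have c0 : (y + s • u + lat m) 0 = z0 + s * u 0 := by
      simp [lat, hm, hz0]
      ring
    have c1 : (y + s • u + lat m) 1 = z1 + s * u 1 := by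
      simp [lat, hm, hz1]
      ring
    have h2 : r₀ ^ 2 ≤ (z0 + s * u 0) ^ 2 + (z1 + s * u 1) ^ 2 := by
      rw [← c0, ← c1, ← norm_sq2]
      exact pow_le_pow_left₀ hr0.le h1 2
    have h3 : -(q : ℝ) * (z0 + s * u 0) + (p : ℝ) * (z1 + s * u 1) = 0 := by
      have e1 : s * (-(q : ℝ) * u 0 + (p : ℝ) * u 1) = -(-(q : ℝ) * z0 + (p : ℝ) * z1) := by
        rw [hs]
        exact div_mul_cancel₀ _ htu
      linear_combination e1
    have h4 : (p : ℝ) * (z0 + s * u 0) + (q : ℝ) * (z1 + s * u 1) =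
        (p : ℝ) * y 0 + (q : ℝ) * y 1 + 2 * Real.pi * j := by
      rw [hz0, hz1]
      linear_combination s * hpu + 2 * Real.pi * j * hab'
    have h5 : ((p : ℝ) ^ 2 + (q : ℝ) ^ 2) * ((z0 + s * u 0) ^ 2 + (z1 + s * u 1) ^ 2) =
        ((p : ℝ) * y 0 + (q : ℝ) * y 1 + 2 * Real.pi * j) ^ 2 := by
      rw [← h4]
      linear_combination (-(q : ℝ) * (z0 + s * u 0) + (p : ℝ) * (z1 + s * u 1)) * h3
    rw [← h5, mul_comm]
    exact mul_le_mul_of_nonneg_left h2 hD.le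
  -- bound for p, q
  have hsmall : p ^ 2 + q ^ 2 ≤ 3 := by
    set t : ℝ := (p : ℝ) * y 0 + (q : ℝ) * y 1 with ht
    have h1 := key (-round (t / (2 * Real.pi)))
    have h2 := abs_sub_round (t / (2 * Real.pi))
    have h3 : |t + 2 * Real.pi * ((-round (t / (2 * Real.pi)) : ℤ) : ℝ)| ≤ Real.pi := by
      have e1 : t + 2 * Real.pi * ((-round (t / (2 * Real.pi)) : ℤ) : ℝ) =
          2 * Real.pi * (t / (2 * Real.pi) - (round (t / (2 * Real.pi)) : ℤ)) := by
        push_cast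
        field_simp
        ring
      rw [e1, abs_mul, abs_of_pos (by positivity : (0 : ℝ) < 2 * Real.pi)]
      nlinarith
    have h4 : (t + 2 * Real.pi * ((-round (t / (2 * Real.pi)) : ℤ) : ℝ)) ^ 2 ≤ Real.pi ^ 2 := by
      rw [← sq_abs]
      exact pow_le_pow_left₀ (abs_nonneg _) h3 2
    have h5 : r₀ ^ 2 * ((p : ℝ) ^ 2 + (q : ℝ) ^ 2) ≤ Real.pi ^ 2 := h1.trans h4
    by_contra hcon
    rw [not_le] at hcon
    have h6 : (4 : ℝ) ≤ (p : ℝ) ^ 2 + (q : ℝ) ^ 2 := by exact_mod_cast hcon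
    have h7 : (53 / 100 * Real.pi) ^ 2 < r₀ ^ 2 := pow_lt_pow_left₀ hr (by positivity) (by norm_num)
    have h8 : 0 < Real.pi ^ 2 := by positivity
    nlinarith
  have hp1 : -1 ≤ p ∧ p ≤ 1 := by constructor <;> nlinarith [sq_nonneg q]
  have hq1 : -1 ≤ q ∧ q ≤ 1 := by constructor <;> nlinarith [sq_nonneg p]
  have hsqrt : ∀ t : ℝ, r₀ ^ 2 * 2 ≤ t ^ 2 → Real.sqrt 2 * r₀ ≤ |t| := by
    intro t ht
    apply le_of_sq_le_sq _ (abs_nonneg t)
    rw [sq_abs, mul_pow, Real.sq_sqrt (by norm_num)]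
    linarith
  have hone : ∀ t : ℝ, r₀ ^ 2 ≤ t ^ 2 → r₀ ≤ |t| := by
    intro t ht
    apply le_of_sq_le_sq _ (abs_nonneg t)
    rw [sq_abs]
    exact ht
  obtain ⟨hp1, hp2⟩ := hp1
  obtain ⟨hq1, hq2⟩ := hq1
  interval_cases p <;> interval_cases q
  · -- (-1,-1)
    right; right; right
    refine ⟨by push_cast at hpu; linarith, fun k => hsqrt _ ?_⟩
    have := key (-k)
    push_cast at this
    nlinarith
  · -- (-1,0)
    right; left
    refine ⟨by push_cast at hpu; linarith, fun k => hone _ ?_⟩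
    have := key (-k)
    push_cast at this
    nlinarith
  · -- (-1,1)
    right; right; left
    refine ⟨by push_cast at hpu; linarith, fun k => hsqrt _ ?_⟩
    have := key (-k)
    push_cast at this
    nlinarith
  · -- (0,-1)
    left
    refine ⟨by push_cast at hpu; linarith, fun k => hone _ ?_⟩
    have := key (-k)
    push_cast at this
    nlinarith
  · -- (0,0)
    exfalso
    norm_num at hD
  · -- (0,1)
    left
    refine ⟨by push_cast at hpu; linarith, fun k => hone _ ?_⟩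
    have := key k
    push_cast at this
    nlinarith
  · -- (1,-1)
    right; right; left
    refine ⟨by push_cast at hpu; linarith, fun k => hsqrt _ ?_⟩
    have := key k
    push_cast at this
    nlinarith
  · -- (1,0)
    right; left
    refine ⟨by push_cast at hpu; linarith, fun k => hone _ ?_⟩
    have := key k
    push_cast at this
    nlinarith
  · -- (1,1)
    right; right; right
    refine ⟨by push_cast at hpu; linarith, fun k => hsqrt _ ?_⟩
    have := key k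
    push_cast at this
    nlinarith

end Pool.Agent.Work.MP_c9f990_an.Al
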