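import Pool.Agent.Work.MP_c9f990_an.Lr.G1

set_option autoImplicit false

/-!
# MP_c9f990_an: points on the circle (helper53)
-/

open MeasureTheory Set Filter Topology

namespace Pool.Agent.Work.MP_c9f990_an.Al

namespace G2X

lemma far_neg {ρ t : ℝ} (h : FarC ρ t) : FarC ρ (-t) := by
  intro k
  have := h (-k)
  push_cast at this
  rw [← abs_neg]
  convert this using 2
  ring

lemma far_add {ρ t : ℝ} (h : FarC ρ t) (m : ℤ) : FarC ρ (t + 2 * Real.pi * m) := by
  intro k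
  have := h (m + k)
  push_cast at this
  convert this using 2
  ring

/-- reduction to `[0, 2 π)` -/
lemma red1 (t : ℝ) : ∃ m : ℤ, 0 ≤ t + 2 * Real.pi * m ∧ t + 2 * Real.pi * m < 2 * Real.pi := by
  have hpi : 0 < 2 * Real.pi := by positivity
  refine ⟨-⌊t / (2 * Real.pi)⌋, ?_, ?_⟩
  · have h1 := Int.floor_le (t / (2 * Real.pi))
    rw [le_div_iff₀ hpi] at h1
    push_cast
    linarith
  · have h2 := Int.lt_floor_add_one (t / (2 * Real.pi))
    rw [div_lt_iff₀ hpi] at h2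
    push_cast
    linarith

/-- in `[0, 2 π)` a far number is in `[ρ, 2 π - ρ]` -/
lemma far_Icc {ρ t : ℝ} (h : FarC ρ t) (h0 : 0 ≤ t) (h1 : t ≤ 2 * Real.pi) :
    ρ ≤ t ∧ t ≤ 2 * Real.pi - ρ := by
  have e1 := h 0
  have e2 := h (-1)
  push_cast at e1 e2
  rw [mul_zero, add_zero, abs_of_nonneg h0] at e1
  rw [abs_of_nonpos (by linarith)] at e2
  constructor <;> linarith

end G2X

open G2X

/-- two far points bound the radius -/
theorem far_le {ρ t : ℝ} (h : FarC ρ t) : 2 * ρ ≤ 2 * Real.pi := by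
  obtain ⟨m, h0, h1⟩ := red1 t
  have := far_Icc (far_add h m) h0 h1.le
  linarith

/-- three points with pairwise distance at least `ρ` -/
theorem three_far {ρ a b c : ℝ} (hab : FarC ρ (a - b)) (hac : FarC ρ (a - c))
    (hbc : FarC ρ (b - c)) : 3 * ρ ≤ 2 * Real.pi := by
  obtain ⟨m, h0, h1⟩ := red1 (a - b)
  obtain ⟨l, h2, h3⟩ := red1 (a - c)
  have e1 := far_Icc (far_add hab m) h0 h1.le
  have e2 := far_Icc (far_add hac l) h2 h3.le
  have e3 := hbc (l - m)
  push_cast at e3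
  have e4 : b - c + 2 * Real.pi * ((l : ℝ) - m) =
      (a - c + 2 * Real.pi * l) - (a - b + 2 * Real.pi * m) := by ring
  rw [e4] at e3
  rcases abs_cases ((a - c + 2 * Real.pi * l) - (a - b + 2 * Real.pi * m)) with h | h <;> linarith

/-- four points with pairwise distance at least `ρ` -/
theorem four_far {ρ a b c d : ℝ} (hρ : 0 ≤ ρ) (hab : FarC ρ (a - b)) (hac : FarC ρ (a - c))
    (had : FarC ρ (a - d)) (hbc : FarC ρ (b - c)) (hbd : FarC ρ (b - d)) (hcd : FarC ρ (c - d)) :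
    4 * ρ ≤ 2 * Real.pi := by
  obtain ⟨m, h0, h1⟩ := red1 (a - b)
  obtain ⟨l, h2, h3⟩ := red1 (a - c)
  obtain ⟨k, h4, h5⟩ := red1 (a - d)
  have e1 := far_Icc (far_add hab m) h0 h1.le
  have e2 := far_Icc (far_add hac l) h2 h3.le
  have e3 := far_Icc (far_add had k) h4 h5.le
  have f1 := hbc (l - m)
  have f2 := hbd (k - m)
  have f3 := hcd (k - l)
  push_cast at f1 f2 f3
  have g1 : b - c + 2 * Real.pi * ((l : ℝ) - m) =
      (a - c + 2 * Real.pi * l) - (a - b + 2 * Real.pi * m) := by ring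
  have g2 : b - d + 2 * Real.pi * ((k : ℝ) - m) =
      (a - d + 2 * Real.pi * k) - (a - b + 2 * Real.pi * m) := by ring
  have g3 : c - d + 2 * Real.pi * ((k : ℝ) - l) =
      (a - d + 2 * Real.pi * k) - (a - c + 2 * Real.pi * l) := by ring
  rw [g1] at f1
  rw [g2] at f2
  rw [g3] at f3
  set B := a - b + 2 * Real.pi * m
  set C := a - c + 2 * Real.pi * l
  set D := a - d + 2 * Real.pi * k
  rcases abs_cases (C - B) with h | h <;> rcases abs_cases (D - B) with h' | h' <;>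
    rcases abs_cases (D - C) with h'' | h'' <;> linarith

/-- two points far from a third one are near to each other -/
theorem slack2 {ρ a a' b : ℝ} (h : FarC ρ (a - b)) (h' : FarC ρ (a' - b)) :
    NearC (2 * Real.pi - 2 * ρ) (a - a') := by
  obtain ⟨m, h0, h1⟩ := red1 (a - b)
  obtain ⟨l, h2, h3⟩ := red1 (a' - b)
  have e1 := far_Icc (far_add h m) h0 h1.le
  have e2 := far_Icc (far_add h' l) h2 h3.le
  refine ⟨m - l, ?_⟩
  have e3 : a - a' + 2 * Real.pi * ((m - l : ℤ) : ℝ) =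
      (a - b + 2 * Real.pi * m) - (a' - b + 2 * Real.pi * l) := by
    push_cast
    ring
  rw [e3, abs_le]
  constructor <;> linarith

/-- two points far from two others, which are far from each other -/
theorem slack3 {ρ a a' b c : ℝ} (hρ : Real.pi < 2 * ρ) (hab : FarC ρ (a - b))
    (hac : FarC ρ (a - c)) (hab' : FarC ρ (a' - b)) (hac' : FarC ρ (a' - c))
    (hbc : FarC ρ (b - c)) : NearC (2 * Real.pi - 3 * ρ) (a - a') := by
  obtain ⟨m, h0, h1⟩ := red1 (a - b)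
  obtain ⟨l, h2, h3⟩ := red1 (a' - b)
  obtain ⟨k, h4, h5⟩ := red1 (c - b)
  have e1 := far_Icc (far_add hab m) h0 h1.le
  have e2 := far_Icc (far_add hab' l) h2 h3.le
  have e3' : FarC ρ (c - b) := by
    have := far_neg hbc
    rwa [neg_sub] at this
  have e3 := far_Icc (far_add e3' k) h4 h5.le
  have f1 := hac (m - k)
  have f2 := hac' (l - k)
  push_cast at f1 f2
  have g1 : a - c + 2 * Real.pi * ((m : ℝ) - k) =
      (a - b + 2 * Real.pi * m) - (c - b + 2 * Real.pi * k) := by ring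
  have g2 : a' - c + 2 * Real.pi * ((l : ℝ) - k) =
      (a' - b + 2 * Real.pi * l) - (c - b + 2 * Real.pi * k) := by ring
  rw [g1] at f1
  rw [g2] at f2
  refine ⟨m - l, ?_⟩
  have g3 : a - a' + 2 * Real.pi * ((m - l : ℤ) : ℝ) =
      (a - b + 2 * Real.pi * m) - (a' - b + 2 * Real.pi * l) := by
    push_cast
    ring
  rw [g3]
  set A := a - b + 2 * Real.pi * m
  set A' := a' - b + 2 * Real.pi * l
  set C := c - b + 2 * Real.pi * k
  rw [abs_le]
  rcases abs_cases (A - C) with h | h <;> rcases abs_cases (A' - C) with h' | h' <;>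
    constructor <;> linarith

/-- the centre is tight -/
theorem tight_box {Φ : E 2 → ℝ} (hΦ : Kernel Φ) {r₀ : ℝ} (hR : ∀ x, ‖x‖ < r₀ → 0 < Φ x)
    (hr0 : 0 < r₀) (hr : Real.sqrt 2 * (2 * Real.pi - 3 * r₀) < r₀) {d : E 2}
    (h0 : NearC (2 * Real.pi - 3 * r₀) (d 0)) (h1 : NearC (2 * Real.pi - 3 * r₀) (d 1)) :
    0 < Φ d := by
  obtain ⟨k, hk⟩ := h0
  obtain ⟨l, hl⟩ := h1
  have c0 : (d + lat ![k, l]) 0 = d 0 + 2 * Real.pi * k := by simp [lat]
  have c1 : (d + lat ![k, l]) 1 = d 1 + 2 * Real.pi * l := by simp [lat]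
  rw [← hΦ.per ![k, l] d]
  apply hR
  have hw : 0 ≤ 2 * Real.pi - 3 * r₀ := (abs_nonneg _).trans hk
  apply lt_of_pow_lt_pow_left₀ 2 hr0.le
  rw [G1X.norm_sq2, c0, c1]
  have e1 : (d 0 + 2 * Real.pi * k) ^ 2 ≤ (2 * Real.pi - 3 * r₀) ^ 2 := by
    rw [← sq_abs]
    exact pow_le_pow_left₀ (abs_nonneg _) hk 2
  have e2 : (d 1 + 2 * Real.pi * l) ^ 2 ≤ (2 * Real.pi - 3 * r₀) ^ 2 := by
    rw [← sq_abs]
    exact pow_le_pow_left₀ (abs_nonneg _) hl 2
  have e3 : (Real.sqrt 2 * (2 * Real.pi - 3 * r₀)) ^ 2 < r₀ ^ 2 :=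
    pow_lt_pow_left₀ hr (by positivity) (by norm_num)
  rw [mul_pow, Real.sq_sqrt (by norm_num)] at e3
  linarith

/-- the arms are tight: `t` is one of the two coordinates -/
theorem tight_arm {Φ : E 2 → ℝ} (hΦ : Kernel Φ) {r₀ : ℝ} (hR : ∀ x, ‖x‖ < r₀ → 0 < Φ x)
    (hr0 : 0 < r₀) (hr : 53 / 100 * Real.pi < r₀) {d : E 2}
    (h0 : NearC (2 * Real.pi - 2 * (Real.sqrt 2 * r₀)) (d 0 + d 1))
    (h1 : NearC (2 * Real.pi - 2 * (Real.sqrt 2 * r₀)) (d 0 - d 1))
    (h2 : NearC (2 * Real.pi - 3 * r₀) (d 0) ∨ NearC (2 * Real.pi - 3 * r₀) (d 1)) :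
    0 < Φ d := by
  obtain ⟨k, hk⟩ := h0
  obtain ⟨l, hl⟩ := h1
  have hpi : 0 < Real.pi := Real.pi_pos
  have hs2 : (141 / 100 : ℝ) < Real.sqrt 2 := by
    rw [Real.lt_sqrt (by norm_num)]
    norm_num
  have hsr : 141 / 100 * r₀ < Real.sqrt 2 * r₀ := mul_lt_mul_of_pos_right hs2 hr0
  set w : ℝ := 2 * Real.pi - 2 * (Real.sqrt 2 * r₀) with hw
  have hwr : w < r₀ := by rw [hw]; nlinarith
  -- parity
  have hpar : Even (k + l) := by
    by_contra hodd
    rw [Int.not_even_iff_odd] at hodd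
    obtain ⟨j, hj⟩ := hodd
    have hj' : (k : ℝ) + l = 2 * j + 1 := by exact_mod_cast hj
    have hodd' : ∀ m : ℤ, (1 : ℝ) ≤ |2 * (m : ℝ) - (2 * j + 1)| ∧
        (1 : ℝ) ≤ |2 * (m : ℝ) - (k - l)| := by
      intro m
      constructor
      · have : (1 : ℤ) ≤ |2 * m - (2 * j + 1)| := by
          apply Int.one_le_abs
          omega
        exact_mod_cast this
      · have : (1 : ℤ) ≤ |2 * m - (k - l)| := by
          apply Int.one_le_abs
          omega
        exact_mod_cast this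
    rcases h2 with ⟨m, hm⟩ | ⟨m, hm⟩
    · have e1 := (hodd' m).1
      have e2 : Real.pi * (2 * (m : ℝ) - (2 * j + 1)) =
          (d 0 + 2 * Real.pi * m) - ((d 0 + d 1 + 2 * Real.pi * k) + (d 0 - d 1 + 2 * Real.pi * l)) / 2 := by
        rw [← hj']
        ring
      have e3 : Real.pi ≤ |Real.pi * (2 * (m : ℝ) - (2 * j + 1))| := by
        rw [abs_mul, abs_of_pos hpi]
        nlinarith
      rw [e2] at e3
      rw [abs_le] at hk hl hm
      rcases abs_cases ((d 0 + 2 * Real.pi * m) - ((d 0 + d 1 + 2 * Real.pi * k) + (d 0 - d 1 + 2 * Real.pi * l)) / 2) with h | h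
      · nlinarith
      · nlinarith
    · have e1 := (hodd' m).2
      have e2 : Real.pi * (2 * (m : ℝ) - (k - l)) =
          (d 1 + 2 * Real.pi * m) - ((d 0 + d 1 + 2 * Real.pi * k) - (d 0 - d 1 + 2 * Real.pi * l)) / 2 := by
        ring
      have e3 : Real.pi ≤ |Real.pi * (2 * (m : ℝ) - (k - l))| := by
        rw [abs_mul, abs_of_pos hpi]
        nlinarith
      rw [e2] at e3
      rw [abs_le] at hk hl hm
      rcases abs_cases ((d 1 + 2 * Real.pi * m) - ((d 0 + d 1 + 2 * Real.pi * k) - (d 0 - d 1 + 2 * Real.pi * l)) / 2) with h | h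
      · nlinarith
      · nlinarith
  obtain ⟨j, hj⟩ := hpar
  have hj' : (k : ℝ) + l = j + j := by exact_mod_cast hj
  have c0 : (d + lat ![j, k - j]) 0 =
      ((d 0 + d 1 + 2 * Real.pi * k) + (d 0 - d 1 + 2 * Real.pi * l)) / 2 := by
    simp [lat]
    linear_combination -Real.pi * hj'
  have c1 : (d + lat ![j, k - j]) 1 =
      ((d 0 + d 1 + 2 * Real.pi * k) - (d 0 - d 1 + 2 * Real.pi * l)) / 2 := by
    simp [lat]
    linear_combination Real.pi * hj'
  rw [← hΦ.per ![j, k - j] d]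
  apply hR
  have hw0 : 0 ≤ w := (abs_nonneg _).trans hk
  apply lt_of_pow_lt_pow_left₀ 2 hr0.le
  rw [G1X.norm_sq2, c0, c1]
  have e1 : (d 0 + d 1 + 2 * Real.pi * k) ^ 2 ≤ w ^ 2 := by
    rw [← sq_abs]
    exact pow_le_pow_left₀ (abs_nonneg _) hk 2
  have e2 : (d 0 - d 1 + 2 * Real.pi * l) ^ 2 ≤ w ^ 2 := by
    rw [← sq_abs]
    exact pow_le_pow_left₀ (abs_nonneg _) hl 2
  have e3 : w ^ 2 < r₀ ^ 2 := pow_lt_pow_left₀ hwr hw0 (by norm_num)
  nlinarith

end Pool.Agent.Work.MP_c9f990_an.Al
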