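import Pool.Agent.Work.MP_c9f990_an.Lr.G2

set_option autoImplicit false

/-!
# MP_c9f990_an: five points in the plane with four directions (helper53)
-/

open MeasureTheory Set Filter Topology

namespace Pool.Agent.Work.MP_c9f990_an.Al

/-- combinatorial hypotheses on the finite set of velocities -/
structure Dirs (S : Finset (E 2)) : Prop where
  dir : ∀ a ∈ S, ∀ b ∈ S, a 1 = b 1 ∨ a 0 = b 0 ∨ a 0 - a 1 = b 0 - b 1 ∨ a 0 + a 1 = b 0 + b 1
  diag : ∀ a ∈ S, ∀ b ∈ S, ∀ e ∈ S, a ≠ b → a ≠ e → b ≠ e → a 0 - a 1 = b 0 - b 1 →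
    a 0 - a 1 = e 0 - e 1 → False
  anti : ∀ a ∈ S, ∀ b ∈ S, ∀ e ∈ S, a ≠ b → a ≠ e → b ≠ e → a 0 + a 1 = b 0 + b 1 →
    a 0 + a 1 = e 0 + e 1 → False
  row : ∀ a ∈ S, ∀ b ∈ S, ∀ e ∈ S, ∀ f ∈ S, a ≠ b → a ≠ e → a ≠ f → b ≠ e → b ≠ f → e ≠ f →
    a 1 = b 1 → a 1 = e 1 → a 1 = f 1 → False
  col : ∀ a ∈ S, ∀ b ∈ S, ∀ e ∈ S, ∀ f ∈ S, a ≠ b → a ≠ e → a ≠ f → b ≠ e → b ≠ f → e ≠ f →
    a 0 = b 0 → a 0 = e 0 → a 0 = f 0 → False

/-- the cross -/
structure Cross (S : Finset (E 2)) (p o q u d : E 2) (t : ℝ) : Prop where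
  pos : 0 < t
  pS : p ∈ S
  oS : o ∈ S
  qS : q ∈ S
  uS : u ∈ S
  dS : d ∈ S
  o0 : o 0 = p 0 + t
  o1 : o 1 = p 1
  q0 : q 0 = p 0 + 2 * t
  q1 : q 1 = p 1
  u0 : u 0 = p 0 + t
  u1 : u 1 = p 1 + t
  d0 : d 0 = p 0 + t
  d1 : d 1 = p 1 - t
  all : ∀ a ∈ S, a = p ∨ a = o ∨ a = q ∨ a = u ∨ a = d

namespace G4X

lemma ext2 {a b : E 2} (h0 : a 0 = b 0) (h1 : a 1 = b 1) : a = b := by
  ext i
  fin_cases i
  · exact h0
  · exact h1

/-- lexicographic minimum -/
lemma lexmin (S : Finset (E 2)) (hS : S.Nonempty) : ∃ p ∈ S, ∀ a ∈ S,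
    p 0 < a 0 ∨ (p 0 = a 0 ∧ p 1 ≤ a 1) := by
  obtain ⟨p, hp, h⟩ := Finset.exists_min_image S (fun a => toLex ((a 0 : ℝ), (a 1 : ℝ))) hS
  refine ⟨p, hp, fun a ha => ?_⟩
  have := h a ha
  rw [Prod.Lex.toLex_le_toLex] at this
  exact this

end G4X

open G4X in
/-- five points force the cross -/
theorem cross {S : Finset (E 2)} (hS : Dirs S) (hcard : 5 ≤ S.card) :
    ∃ (p o q u d : E 2) (t : ℝ), Cross S p o q u d t := by
  classical
  obtain ⟨p, hp, hmin⟩ := lexmin S (Finset.card_pos.1 (by omega))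
  set S' := S.erase p with hS'
  have hcard' : 4 ≤ S'.card := by
    rw [hS', Finset.card_erase_of_mem hp]
    omega
  set SH := S'.filter (fun a => a 1 = p 1) with hSH
  set SV := S'.filter (fun a => a 0 = p 0) with hSV
  set SD := S'.filter (fun a => a 0 - a 1 = p 0 - p 1) with hSD
  set SA := S'.filter (fun a => a 0 + a 1 = p 0 + p 1) with hSA
  have hsub : S' ⊆ (SH ∪ SV) ∪ (SD ∪ SA) := by
    intro a ha
    have haS : a ∈ S := Finset.mem_of_mem_erase ha
    rcases hS.dir a haS p hp with h | h | h | h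
    · exact Finset.mem_union_left _ (Finset.mem_union_left _ (Finset.mem_filter.2 ⟨ha, h⟩))
    · exact Finset.mem_union_left _ (Finset.mem_union_right _ (Finset.mem_filter.2 ⟨ha, h⟩))
    · exact Finset.mem_union_right _ (Finset.mem_union_left _ (Finset.mem_filter.2 ⟨ha, h⟩))
    · exact Finset.mem_union_right _ (Finset.mem_union_right _ (Finset.mem_filter.2 ⟨ha, h⟩))
  have hle : S'.card ≤ SH.card + SV.card + (SD.card + SA.card) := by
    refine (Finset.card_le_card hsub).trans ((Finset.card_union_le _ _).trans ?_)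
    exact Nat.add_le_add (Finset.card_union_le _ _) (Finset.card_union_le _ _)
  -- membership facts
  have fH : ∀ a ∈ SH, a ∈ S ∧ a ≠ p ∧ a 1 = p 1 ∧ p 0 < a 0 := by
    intro a ha
    obtain ⟨h1, h2⟩ := Finset.mem_filter.1 ha
    obtain ⟨h3, h4⟩ := Finset.mem_erase.1 h1
    refine ⟨h4, h3, h2, ?_⟩
    rcases hmin a h4 with h | ⟨h, -⟩
    · exact h
    · exact absurd (ext2 h.symm h2) h3
  have fV : ∀ a ∈ SV, a ∈ S ∧ a ≠ p ∧ a 0 = p 0 ∧ p 1 < a 1 := by
    intro a ha
    obtain ⟨h1, h2⟩ := Finset.mem_filter.1 ha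
    obtain ⟨h3, h4⟩ := Finset.mem_erase.1 h1
    refine ⟨h4, h3, h2, ?_⟩
    rcases hmin a h4 with h | ⟨-, h⟩
    · rw [h2] at h
      exact absurd h (lt_irrefl _)
    · rcases lt_or_eq_of_le h with h' | h'
      · exact h'
      · exact absurd (ext2 h2 h'.symm) h3
  have fD : ∀ a ∈ SD, a ∈ S ∧ a ≠ p ∧ a 0 - a 1 = p 0 - p 1 ∧ p 0 < a 0 := by
    intro a ha
    obtain ⟨h1, h2⟩ := Finset.mem_filter.1 ha
    obtain ⟨h3, h4⟩ := Finset.mem_erase.1 h1
    refine ⟨h4, h3, h2, ?_⟩
    rcases hmin a h4 with h | ⟨h, -⟩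
    · exact h
    · exact absurd (ext2 h.symm (by linarith)) h3
  have fA : ∀ a ∈ SA, a ∈ S ∧ a ≠ p ∧ a 0 + a 1 = p 0 + p 1 ∧ p 0 < a 0 := by
    intro a ha
    obtain ⟨h1, h2⟩ := Finset.mem_filter.1 ha
    obtain ⟨h3, h4⟩ := Finset.mem_erase.1 h1
    refine ⟨h4, h3, h2, ?_⟩
    rcases hmin a h4 with h | ⟨h, -⟩
    · exact h
    · exact absurd (ext2 h.symm (by linarith)) h3
  have cD : SD.card ≤ 1 := by
    rw [Finset.card_le_one]
    intro a ha b hb
    by_contra hab
    obtain ⟨a1, a2, a3, -⟩ := fD a ha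
    obtain ⟨b1, b2, b3, -⟩ := fD b hb
    exact hS.diag p hp a a1 b b1 a2.symm b2.symm hab a3.symm b3.symm
  have cA : SA.card ≤ 1 := by
    rw [Finset.card_le_one]
    intro a ha b hb
    by_contra hab
    obtain ⟨a1, a2, a3, -⟩ := fA a ha
    obtain ⟨b1, b2, b3, -⟩ := fA b hb
    exact hS.anti p hp a a1 b b1 a2.symm b2.symm hab a3.symm b3.symm
  have cH : SH.card ≤ 2 := by
    by_contra hcon
    rw [not_le, Finset.two_lt_card] at hcon
    obtain ⟨a, ha, b, hb, e, he, hab, hae, hbe⟩ := hcon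
    obtain ⟨a1, a2, a3, -⟩ := fH a ha
    obtain ⟨b1, b2, b3, -⟩ := fH b hb
    obtain ⟨e1, e2, e3, -⟩ := fH e he
    exact hS.row p hp a a1 b b1 e e1 a2.symm b2.symm e2.symm hab hae hbe a3.symm b3.symm e3.symm
  have cV : SV.card ≤ 2 := by
    by_contra hcon
    rw [not_le, Finset.two_lt_card] at hcon
    obtain ⟨a, ha, b, hb, e, he, hab, hae, hbe⟩ := hcon
    obtain ⟨a1, a2, a3, -⟩ := fV a ha
    obtain ⟨b1, b2, b3, -⟩ := fV b hb
    obtain ⟨e1, e2, e3, -⟩ := fV e he
    exact hS.col p hp a a1 b b1 e e1 a2.symm b2.symm e2.symm hab hae hbe a3.symm b3.symm e3.symm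
  -- relation between a row point and a column point
  have rHV : ∀ a ∈ SH, ∀ b ∈ SV, a 0 - p 0 = b 1 - p 1 := by
    intro a ha b hb
    obtain ⟨a1, a2, a3, a4⟩ := fH a ha
    obtain ⟨b1, b2, b3, b4⟩ := fV b hb
    rcases hS.dir a a1 b b1 with h | h | h | h
    · exfalso; linarith
    · exfalso; linarith
    · exfalso; linarith
    · linarith
  have hVe : SV = ∅ := by
    by_contra hne
    obtain ⟨b, hb⟩ := Finset.nonempty_iff_ne_empty.2 hne
    obtain ⟨b1, b2, b3, b4⟩ := fV b hb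
    have hA0 : SA = ∅ := by
      rw [Finset.eq_empty_iff_forall_notMem]
      intro a ha
      obtain ⟨a1, a2, a3, a4⟩ := fA a ha
      rcases hS.dir a a1 b b1 with h | h | h | h <;> linarith
    have hA0' : SA.card = 0 := by rw [hA0]; rfl
    have hHV : SH.card + SV.card ≤ 2 := by
      rcases Finset.eq_empty_or_nonempty SH with h | ⟨a, ha⟩
      · rw [h, Finset.card_empty, zero_add]
        exact cV
      · have h1 : SH.card ≤ 1 := by
          rw [Finset.card_le_one]
          intro e he f hf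
          have e1 := rHV e he b hb
          have f1 := rHV f hf b hb
          exact ext2 (by linarith) ((fH e he).2.2.1.trans (fH f hf).2.2.1.symm)
        have h2 : SV.card ≤ 1 := by
          rw [Finset.card_le_one]
          intro e he f hf
          have e1 := rHV a ha e he
          have f1 := rHV a ha f hf
          exact ext2 ((fV e he).2.2.1.trans (fV f hf).2.2.1.symm) (by linarith)
        omega
    omega
  have hV0 : SV.card = 0 := by rw [hVe]; rfl
  have hH2 : SH.card = 2 := by omega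
  have hD1 : SD.card = 1 := by omega
  have hA1 : SA.card = 1 := by omega
  obtain ⟨u, hu⟩ := Finset.card_eq_one.1 hD1
  obtain ⟨d, hd⟩ := Finset.card_eq_one.1 hA1
  obtain ⟨h1, h2, h12, hHeq⟩ := Finset.card_eq_two.1 hH2
  have huD : u ∈ SD := by rw [hu]; exact Finset.mem_singleton_self _
  have hdA : d ∈ SA := by rw [hd]; exact Finset.mem_singleton_self _
  have hh1 : h1 ∈ SH := by rw [hHeq]; simp
  have hh2 : h2 ∈ SH := by rw [hHeq]; simp
  obtain ⟨u1, u2, u3, u4⟩ := fD u huD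
  obtain ⟨d1, d2, d3, d4⟩ := fA d hdA
  have hud : u 0 = d 0 := by
    rcases hS.dir u u1 d d1 with h | h | h | h
    · exfalso; linarith
    · exact h
    · exfalso; linarith
    · exfalso; linarith
  have hHu : ∀ a ∈ SH, a 0 = u 0 ∨ a 0 - p 0 = 2 * (u 0 - p 0) := by
    intro a ha
    obtain ⟨a1, a2, a3, a4⟩ := fH a ha
    rcases hS.dir a a1 u u1 with h | h | h | h
    · exfalso; linarith
    · exact Or.inl h
    · exfalso; linarith
    · right; linarith
  have hall : ∀ a ∈ S, a = p ∨ a = h1 ∨ a = h2 ∨ a = u ∨ a = d := by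
    intro a ha
    by_cases hap : a = p
    · exact Or.inl hap
    · right
      have haS' : a ∈ S' := Finset.mem_erase.2 ⟨hap, ha⟩
      have := hsub haS'
      rw [hVe, hHeq, hu, hd] at this
      simp only [Finset.union_empty, Finset.mem_union, Finset.mem_insert,
        Finset.mem_singleton] at this
      tauto
  obtain ⟨a1, a2, a3, a4⟩ := fH h1 hh1
  obtain ⟨b1, b2, b3, b4⟩ := fH h2 hh2
  have hne0 : h1 0 ≠ h2 0 := fun h => h12 (ext2 h (a3.trans b3.symm))
  rcases hHu h1 hh1 with h | h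
  · rcases hHu h2 hh2 with h' | h'
    · exact absurd (h.trans h'.symm) hne0
    · refine ⟨p, h1, h2, u, d, u 0 - p 0, ?_⟩
      exact { pos := by linarith, pS := hp, oS := a1, qS := b1, uS := u1, dS := d1,
              o0 := by linarith, o1 := a3, q0 := by linarith, q1 := b3, u0 := by ring,
              u1 := by linarith, d0 := by linarith, d1 := by linarith, all := hall }
  · rcases hHu h2 hh2 with h' | h'
    · refine ⟨p, h2, h1, u, d, u 0 - p 0, ?_⟩
      exact { pos := by linarith, pS := hp, oS := b1, qS := a1, uS := u1, dS := d1,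
              o0 := by linarith, o1 := b3, q0 := by linarith, q1 := a3, u0 := by ring,
              u1 := by linarith, d0 := by linarith, d1 := by linarith,
              all := fun a ha => by
                rcases hall a ha with e | e | e | e | e
                · exact Or.inl e
                · exact Or.inr (Or.inr (Or.inl e))
                · exact Or.inr (Or.inl e)
                · exact Or.inr (Or.inr (Or.inr (Or.inl e)))
                · exact Or.inr (Or.inr (Or.inr (Or.inr e))) }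
    · exact absurd (by linarith : h1 0 = h2 0) hne0

end Pool.Agent.Work.MP_c9f990_an.Al
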